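import Mathlib
import Pool.Agent.H660R2.Cfg.Main

set_option autoImplicit false

/-!
Every learner needs about as many strings as the size of the grammar.
-/

namespace Pool.Agent.Y591.CL

open Pool.Agent.NPC Pool.Agent.NPC.H660 Pool.Agent.H660R2.Cfg Finset

variable {k : ℕ}

open Classical in
/-- the grammar of a finite language -/
noncomputable def finGram (L : Finset (Word k)) : ContextFreeGrammar (Fin k) where
  NT := Unit
  initial := ()
  rules := L.image (fun w => ⟨(), w.map Symbol.terminal⟩)

theorem mem_rules (L : Finset (Word k)) (r : ContextFreeRule (Fin k) Unit) :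
    r ∈ (finGram L).rules ↔
      ∃ w ∈ L, (⟨(), w.map Symbol.terminal⟩ : ContextFreeRule (Fin k) Unit) = r := by
  unfold finGram
  exact Finset.mem_image

theorem lang_finGram (L : Finset (Word k)) (v : Word k) :
    v ∈ (finGram L).language ↔ v ∈ L := by
  classical
  rw [← lang_toGram, mem_gramLang_iff]
  have hix : ix (finGram L) () = 0 := ix_initial (finGram L)
  constructor
  · rintro ⟨rhs, h1, h2⟩
    unfold toGram at h1
    obtain ⟨r, hr, he⟩ := List.mem_map.mp h1
    rw [Finset.mem_toList] at hr
    obtain ⟨w, hw, rfl⟩ := (mem_rules L r).1 hr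
    rw [Prod.mk.injEq] at he
    have hrhs : rhs = w.map Sum.inr := by
      rw [← he.2]
      change List.map (conv (ix (finGram L))) (List.map Symbol.terminal w) = _
      rw [List.map_map]
      rfl
    rw [hrhs, yield_terms_iff] at h2
    rw [h2]
    exact hw
  · intro hv
    refine ⟨v.map Sum.inr, ?_, Yield.terms v⟩
    unfold toGram
    refine List.mem_map.mpr ⟨⟨(), v.map Symbol.terminal⟩, ?_, ?_⟩
    · rw [Finset.mem_toList]
      exact (mem_rules L _).2 ⟨v, hv, rfl⟩
    · rw [Prod.mk.injEq]
      refine ⟨hix, ?_⟩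
      change List.map (conv (ix (finGram L))) (List.map Symbol.terminal v) = _
      rw [List.map_map]
      rfl

theorem gsize_finGram (L : Finset (Word k)) (d l : ℕ) (hL : L.card ≤ d)
    (hl : ∀ w ∈ L, w.length = l) : gsize (finGram L) ≤ d * (l + 1) := by
  classical
  unfold gsize finGram
  calc ∑ r ∈ L.image (fun w => (⟨(), w.map Symbol.terminal⟩ : ContextFreeRule (Fin k) Unit)),
        (r.output.length + 1)
      ≤ ∑ w ∈ L, ((w.map (Symbol.terminal : Fin k → Symbol (Fin k) Unit)).length + 1) := by
        apply sum_image_le_of_nonneg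
        · intro r _
          exact Nat.zero_le _
    _ = ∑ w ∈ L, (l + 1) := by
        apply sum_congr rfl
        intro w hw
        rw [List.length_map, hl w hw]
    _ = L.card * (l + 1) := by rw [sum_const, smul_eq_mul]
    _ ≤ d * (l + 1) := Nat.mul_le_mul_right _ hL

/-- the symmetric difference with a single string -/
theorem clash (A : Sample k → Gram k) (L L' : Finset (Word k)) (x : Word k)
    (hne : x ∈ L ↔ x ∉ L') (hagree : ∀ w, w ≠ x → (w ∈ L ↔ w ∈ L'))
    (CS CS' : Finset (Word k) × Finset (Word k))
    (h : IsCharacteristic A CS (finGram L).language)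
    (h' : IsCharacteristic A CS' (finGram L').language) :
    x ∈ CS.1 ∪ CS.2 ∨ x ∈ CS'.1 ∪ CS'.2 := by
  classical
  by_contra hcon
  push Not at hcon
  obtain ⟨hx, hx'⟩ := hcon
  rw [mem_union] at hx hx'
  push Not at hx hx'
  set S : Sample k := ((CS.1 ∪ CS'.1).toList, (CS.2 ∪ CS'.2).toList) with hS
  have hc : ∀ w ∈ CS.1, w ∈ L := fun w hw => (lang_finGram L w).1 (h.1.1 w hw)
  have hc2 : ∀ w ∈ CS.2, w ∉ L := fun w hw hw' => h.1.2 w hw ((lang_finGram L w).2 hw')
  have hc' : ∀ w ∈ CS'.1, w ∈ L' := fun w hw => (lang_finGram L' w).1 (h'.1.1 w hw)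
  have hc2' : ∀ w ∈ CS'.2, w ∉ L' := fun w hw hw' => h'.1.2 w hw ((lang_finGram L' w).2 hw')
  have h1 : ConsistentWith S (finGram L).language := by
    constructor
    · intro w hw
      rw [lang_finGram]
      rw [hS, Finset.mem_toList, mem_union] at hw
      rcases hw with hw | hw
      · exact hc w hw
      · have hwx : w ≠ x := fun e => hx'.1 (e ▸ hw)
        exact (hagree w hwx).2 (hc' w hw)
    · intro w hw
      rw [lang_finGram]
      rw [hS, Finset.mem_toList, mem_union] at hw
      rcases hw with hw | hw
      · exact hc2 w hw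
      · have hwx : w ≠ x := fun e => hx'.2 (e ▸ hw)
        exact fun hL => hc2' w hw ((hagree w hwx).1 hL)
  have h2 : ConsistentWith S (finGram L').language := by
    constructor
    · intro w hw
      rw [lang_finGram]
      rw [hS, Finset.mem_toList, mem_union] at hw
      rcases hw with hw | hw
      · have hwx : w ≠ x := fun e => hx.1 (e ▸ hw)
        exact (hagree w hwx).1 (hc w hw)
      · exact hc' w hw
    · intro w hw
      rw [lang_finGram]
      rw [hS, Finset.mem_toList, mem_union] at hw
      rcases hw with hw | hw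
      · have hwx : w ≠ x := fun e => hx.2 (e ▸ hw)
        exact fun hL => hc2 w hw ((hagree w hwx).2 hL)
      · exact hc2' w hw
  have e1 : gramLang (A S) = (finGram L).language := by
    apply h.2 S h1
    · intro w hw
      rw [hS, Finset.mem_toList]
      exact mem_union_left _ hw
    · intro w hw
      rw [hS, Finset.mem_toList]
      exact mem_union_left _ hw
  have e2 : gramLang (A S) = (finGram L').language := by
    apply h'.2 S h2
    · intro w hw
      rw [hS, Finset.mem_toList]
      exact mem_union_right _ hw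
    · intro w hw
      rw [hS, Finset.mem_toList]
      exact mem_union_right _ hw
  have e3 : x ∈ (finGram L).language ↔ x ∈ (finGram L').language := by rw [← e1, e2]
  rw [lang_finGram, lang_finGram] at e3
  by_cases hxL : x ∈ L
  · exact (hne.1 hxL) (e3.1 hxL)
  · exact hxL (hne.2 (fun hx => hxL (e3.2 hx)))

/-- the double counting -/
theorem cube (A : Sample k → Gram k) (W : Finset (Word k)) :
    ∃ L ⊆ W, ∀ CS : Finset (Word k) × Finset (Word k),
      IsCharacteristic A CS (finGram L).language → W.card ≤ 2 * (CS.1.card + CS.2.card) := by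
  classical
  by_contra hcon
  push Not at hcon
  have h : ∀ L : Finset (Word k), ∃ CS : Finset (Word k) × Finset (Word k), L ⊆ W →
      IsCharacteristic A CS (finGram L).language ∧ 2 * (CS.1.card + CS.2.card) < W.card := by
    intro L
    by_cases hL : L ⊆ W
    · obtain ⟨CS, h1, h2⟩ := hcon L hL
      exact ⟨CS, fun _ => ⟨h1, h2⟩⟩
    · exact ⟨(∅, ∅), fun h => absurd h hL⟩
  choose CS hCS using h
  -- for every string, at least half of the subsets use it
  have key : ∀ x ∈ W, 2 ^ W.card ≤
      2 * ∑ L ∈ W.powerset, (if x ∈ (CS L).1 ∪ (CS L).2 then 1 else 0) := by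
    intro x hx
    set tog : Finset (Word k) → Finset (Word k) := fun L => if x ∈ L then L.erase x else insert x L
      with htog
    have htW : ∀ L ∈ W.powerset, tog L ∈ W.powerset := by
      intro L hL
      rw [mem_powerset] at hL ⊢
      rw [htog]
      simp only
      split_ifs with hxL
      · exact (erase_subset _ _).trans hL
      · exact insert_subset hx hL
    have htt : ∀ L, tog (tog L) = L := by
      intro L
      rw [htog]
      by_cases hxL : x ∈ L
      · simp only [hxL, if_true, notMem_erase, if_false]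
        exact insert_erase hxL
      · simp only [hxL, if_false, mem_insert_self, if_true]
        exact erase_insert hxL
    have hsum : ∑ L ∈ W.powerset, (if x ∈ (CS (tog L)).1 ∪ (CS (tog L)).2 then 1 else 0) =
        ∑ L ∈ W.powerset, (if x ∈ (CS L).1 ∪ (CS L).2 then 1 else 0) :=
      sum_nbij' tog tog htW htW (fun L _ => htt L) (fun L _ => htt L) (fun L _ => rfl)
    calc 2 ^ W.card = ∑ L ∈ W.powerset, 1 := by rw [sum_const, card_powerset]; simp
      _ ≤ ∑ L ∈ W.powerset, ((if x ∈ (CS L).1 ∪ (CS L).2 then 1 else 0) +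
          (if x ∈ (CS (tog L)).1 ∪ (CS (tog L)).2 then 1 else 0)) := by
        apply sum_le_sum
        intro L hL
        have hL2 := htW L hL
        rw [mem_powerset] at hL hL2
        have := clash A L (tog L) x (by
          rw [htog]
          by_cases hxL : x ∈ L
          · simp [hxL]
          · simp [hxL]) (by
          intro w hw
          rw [htog]
          by_cases hxL : x ∈ L
          · simp [hxL, hw]
          · simp [hxL, hw]) (CS L) (CS (tog L)) (hCS L hL).1 (hCS (tog L) hL2).1
        rcases this with h1 | h1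
        · rw [if_pos h1]; omega
        · rw [if_pos h1]; omega
      _ = 2 * ∑ L ∈ W.powerset, (if x ∈ (CS L).1 ∪ (CS L).2 then 1 else 0) := by
        rw [sum_add_distrib, hsum]; ring
  have h1 : W.card * 2 ^ W.card ≤
      2 * ∑ L ∈ W.powerset, ((CS L).1.card + (CS L).2.card) := by
    calc W.card * 2 ^ W.card = ∑ x ∈ W, 2 ^ W.card := by rw [sum_const, smul_eq_mul]
      _ ≤ ∑ x ∈ W, 2 * ∑ L ∈ W.powerset, (if x ∈ (CS L).1 ∪ (CS L).2 then 1 else 0) :=
        sum_le_sum key
      _ = 2 * ∑ L ∈ W.powerset, ∑ x ∈ W, (if x ∈ (CS L).1 ∪ (CS L).2 then 1 else 0) := by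
        rw [← mul_sum, sum_comm]
      _ ≤ 2 * ∑ L ∈ W.powerset, ((CS L).1.card + (CS L).2.card) := by
        apply Nat.mul_le_mul_left
        apply sum_le_sum
        intro L _
        rw [← card_filter]
        have h2 : W.filter (fun x => x ∈ (CS L).1 ∪ (CS L).2) ⊆ (CS L).1 ∪ (CS L).2 := by
          intro x hx
          exact (mem_filter.1 hx).2
        exact (card_le_card h2).trans (card_union_le _ _)
  have h2 : ∑ L ∈ W.powerset, 2 * ((CS L).1.card + (CS L).2.card) < ∑ L ∈ W.powerset, W.card := by
    apply sum_lt_sum_of_nonempty ⟨∅, empty_mem_powerset W⟩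
    intro L hL
    exact (hCS L (mem_powerset.1 hL)).2
  rw [sum_const, card_powerset, smul_eq_mul, ← mul_sum] at h2
  rw [mul_comm] at h1
  omega

/-- there are enough words -/
theorem exists_words (hk : 2 ≤ k) (d l : ℕ) (hd : d ≤ 2 ^ l) :
    ∃ W : Finset (Word k), W.card = d ∧ ∀ w ∈ W, w.length = l := by
  classical
  have hinj : Function.Injective (fun f : Fin l → Fin k => (List.ofFn f : Word k)) :=
    List.ofFn_injective
  have hcard : ((univ : Finset (Fin l → Fin k)).image
      (fun f : Fin l → Fin k => (List.ofFn f : Word k))).card = k ^ l := by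
    rw [card_image_of_injective _ hinj, card_univ, Fintype.card_fun, Fintype.card_fin,
      Fintype.card_fin]
  have hle : d ≤ ((univ : Finset (Fin l → Fin k)).image
      (fun f : Fin l → Fin k => (List.ofFn f : Word k))).card := by
    rw [hcard]
    exact hd.trans (Nat.pow_le_pow_left hk l)
  obtain ⟨W, hW, hWc⟩ := exists_subset_card_eq hle
  refine ⟨W, hWc, fun w hw => ?_⟩
  obtain ⟨f, -, rfl⟩ := mem_image.1 (hW hw)
  exact List.length_ofFn

/-- **Lower bound**: for every map from samples to grammars and every `s` there is a grammar of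
size at most `s` all of whose characteristic samples have at least `s / (2 (log₂ s + 2))` strings,
up to rounding. -/
theorem lower (hk : 2 ≤ k) (A : Sample k → Gram k) (s : ℕ) :
    ∃ G : ContextFreeGrammar (Fin k), gsize G ≤ s ∧
      ∀ CS : Finset (Word k) × Finset (Word k), IsCharacteristic A CS G.language →
        s / (Nat.log 2 s + 2) ≤ 2 * (CS.1.card + CS.2.card) := by
  set d := s / (Nat.log 2 s + 2) with hd
  have hds : d ≤ s := Nat.div_le_self _ _
  have h1 : d ≤ 2 ^ (Nat.log 2 s + 1) := by
    have := (Nat.lt_pow_succ_log_self (b := 2) (by norm_num) s)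
    have h2 : s < 2 ^ (Nat.log 2 s + 1) := this
    omega
  obtain ⟨W, hW, hWl⟩ := exists_words hk d (Nat.log 2 s + 1) h1
  obtain ⟨L, hL, hL2⟩ := cube A W
  refine ⟨finGram L, ?_, fun CS hCS => ?_⟩
  · refine (gsize_finGram L d (Nat.log 2 s + 1) ?_ (fun w hw => hWl w (hL hw))).trans ?_
    · rw [← hW]; exact card_le_card hL
    · rw [hd]
      exact Nat.div_mul_le_self _ _
  · have := hL2 CS hCS
    rwa [hW] at this

end Pool.Agent.Y591.CL
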