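import Mathlib
import Pool.Agent.H660R2.Cfg.Main

set_option autoImplicit false

/-!
The learner of the starting file needs only about `‖G‖ log ‖G‖` strings.
-/

namespace Pool.Agent.Y591.CL

open Pool.Agent.NPC Pool.Agent.NPC.H660 Pool.Agent.H660R2.Cfg

variable {k : ℕ}

theorem size_le_log (n : ℕ) : Nat.size n ≤ Nat.log 2 n + 1 := by
  rw [Nat.size_le]
  exact Nat.lt_pow_succ_log_self (by norm_num) n

theorem sz_nat_le_log (n m : ℕ) (h : n ≤ m) : sz n ≤ 4 * Nat.log 2 m + 5 := by
  have h1 := sz_nat_le n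
  have h2 := size_le_log n
  have h3 := Nat.log_mono_right (b := 2) h
  omega

theorem sz_toGram_le' (G : ContextFreeGrammar (Fin k)) :
    sz (toGram G) ≤ gsize G * (4 * Nat.log 2 (gsize G + 1) + (4 * k + 16)) + 1 := by
  set n := gsize G with hn
  set t := Nat.log 2 (n + 1) with ht
  have hsym : ∀ x : Symbol (Fin k) G.NT, sz (conv (ix G) x) ≤ 4 * t + 4 * k + 7 := by
    intro x
    cases x with
    | nonterminal A =>
      have h1 : sz (conv (ix G) (Symbol.nonterminal A : Symbol (Fin k) G.NT)) =
          sz (ix G A) + 2 := sz_inl _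
      have h2 := sz_nat_le_log (ix G A) (n + 1) (ix_le G A)
      omega
    | terminal a =>
      have h1 : sz (conv (ix G) (Symbol.terminal a : Symbol (Fin k) G.NT)) = sz (a : ℕ) + 4 :=
        sz_inr a
      have h2 := sz_nat_le_self (a : ℕ)
      have h3 := a.2
      omega
  have hrule : ∀ r : ContextFreeRule (Fin k) G.NT,
      sz ((ix G r.input, r.output.map (conv (ix G))) : ℕ × List (ℕ ⊕ Fin k)) + 1 ≤
        (r.output.length + 1) * (4 * t + (4 * k + 16)) := by
    intro r
    have h1 : sz (r.output.map (conv (ix G))) ≤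
        (r.output.map (conv (ix G))).length * ((4 * t + 4 * k + 7) + 1) + 1 := by
      apply sz_le_length_mul
      intro a ha
      obtain ⟨x, _, rfl⟩ := List.mem_map.mp ha
      exact hsym x
    rw [List.length_map] at h1
    have h2 := sz_nat_le_log (ix G r.input) (n + 1) (ix_le G r.input)
    rw [sz_pair]
    nlinarith [Nat.zero_le r.output.length]
  have h1 : sz (toGram G) = (G.rules.toList.map (fun r =>
      sz ((ix G r.input, r.output.map (conv (ix G))) : ℕ × List (ℕ ⊕ Fin k)) + 1)).sum + 1 := by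
    rw [sz_list_eq]
    unfold toGram
    rw [List.map_map]
    rfl
  rw [h1]
  apply Nat.add_le_add_right
  have h2 : (G.rules.toList.map (fun r =>
      sz ((ix G r.input, r.output.map (conv (ix G))) : ℕ × List (ℕ ⊕ Fin k)) + 1)).sum ≤
      (G.rules.toList.map (fun r => (r.output.length + 1) * (4 * t + (4 * k + 16)))).sum :=
    List.sum_le_sum fun r _ => hrule r
  refine h2.trans (le_of_eq ?_)
  rw [List.sum_map_mul_right, hn, ← gsize_eq]

/-- **Upper bound**: a polynomial-time learner for which every grammar has a characteristic sample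
with `O(‖G‖ log ‖G‖)` strings. -/
theorem upper (k : ℕ) : ∃ A : Sample k → Gram k, IsLearner A ∧
    ∀ G : ContextFreeGrammar (Fin k), ∃ CS : Finset (Word k) × Finset (Word k),
      IsCharacteristic A CS G.language ∧
      CS.1.card + CS.2.card ≤ 24 * (k + 4) * (gsize G + 1) * (Nat.log 2 (gsize G + 1) + 1) := by
  refine ⟨learner, isLearner_learner, fun G => ?_⟩
  have hsz := sz_toGram_le' G
  cases k with
  | zero =>
    obtain ⟨X, h1, h2⟩ := char_zero G.language
    refine ⟨_, h1, ?_⟩
    rw [splitBy_card]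
    nlinarith [Nat.zero_le (gsize G), Nat.zero_le (Nat.log 2 (gsize G + 1)),
      Nat.zero_le (gsize G * Nat.log 2 (gsize G + 1))]
  | succ k =>
    obtain ⟨X, h1, h2⟩ := char_pos (toGram G)
    rw [lang_toGram] at h1
    refine ⟨_, h1, ?_⟩
    rw [splitBy_card]
    set n := gsize G with hn
    set t := Nat.log 2 (n + 1) with ht
    have h3 : X.card ≤ 6 * (n * (4 * t + (4 * (k + 1) + 16)) + 2) + 4 := by omega
    refine h3.trans ?_
    have e1 : 6 * (n * (4 * t + (4 * (k + 1) + 16)) + 2) + 4 =
        24 * (n * t) + 24 * (n * (k + 5)) + 16 := by ring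
    have e2 : 24 * (k + 1 + 4) * (n + 1) * (t + 1) =
        24 * ((k + 5) * (n * t)) + 24 * (n * (k + 5)) + 24 * ((k + 5) * t) + 24 * (k + 5) := by
      ring
    rw [e1, e2]
    have h4 : n * t ≤ (k + 5) * (n * t) := Nat.le_mul_of_pos_left _ (by omega)
    omega

end Pool.Agent.Y591.CL
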